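import Pool.Agent.K4H40.NS.Spec

set_option autoImplicit false

namespace Pool.Agent.K4H30.NS

open MvPolynomial Module

noncomputable section

variable {K : Type} [Field K]

/-- linear form of a vector -/
def lf (m : ℕ) : (Fin m → K) →ₗ[K] MvPolynomial (Fin m) K :=
  Fintype.linearCombination K (fun i : Fin m => (X i : MvPolynomial (Fin m) K))

lemma lf_single {m : ℕ} (i : Fin m) : lf m (Pi.single i (1 : K)) = X i := by
  classical
  unfold lf
  rw [Fintype.linearCombination_apply_single, one_smul]

lemma lf_hom {m : ℕ} (c : Fin m → K) : (lf m c).IsHomogeneous 1 := by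
  unfold lf
  rw [Fintype.linearCombination_apply]
  exact Submodule.sum_mem (homogeneousSubmodule (Fin m) K 1)
    (fun i _ => Submodule.smul_mem _ _ (isHomogeneous_X K i))

lemma exists_lf {m : ℕ} {l : MvPolynomial (Fin m) K} (hl : l ∈ homogeneousSubmodule (Fin m) K 1) :
    ∃ c, lf m c = l := by
  rw [homogeneousSubmodule_one_eq_span_X] at hl
  have : l ∈ LinearMap.range (lf (K := K) m) := by
    unfold lf
    rw [Fintype.range_linearCombination]
    exact hl
  exact this

/-- change of variables -/
def ch {m p : ℕ} (T : (Fin m → K) →ₗ[K] (Fin p → K)) :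
    MvPolynomial (Fin m) K →ₐ[K] MvPolynomial (Fin p) K :=
  aeval (fun i => lf p (T (Pi.single i 1)))

lemma ch_lf {m p : ℕ} (T : (Fin m → K) →ₗ[K] (Fin p → K)) (c : Fin m → K) :
    ch T (lf m c) = lf p (T c) := by
  classical
  have : (ch T).toLinearMap ∘ₗ lf m = lf p ∘ₗ T := by
    apply (Pi.basisFun K (Fin m)).ext
    intro i
    simp only [Pi.basisFun_apply, LinearMap.comp_apply, AlgHom.toLinearMap_apply]
    rw [lf_single]
    unfold ch
    rw [aeval_X]
  exact LinearMap.congr_fun this c

lemma ch_hom {m p d : ℕ} (T : (Fin m → K) →ₗ[K] (Fin p → K)) {f : MvPolynomial (Fin m) K}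
    (hf : f.IsHomogeneous d) : (ch T f).IsHomogeneous d := by
  have := hf.aeval (fun i => lf p (T (Pi.single i 1))) (fun i => lf_hom _)
  rw [one_mul] at this
  exact this

lemma ch_comp {m p : ℕ} (T : (Fin m → K) →ₗ[K] (Fin p → K)) (s : (Fin p → K) →ₗ[K] (Fin m → K))
    (h : ∀ x, T (s x) = x) (f : MvPolynomial (Fin p) K) : ch T (ch s f) = f := by
  have : (ch T).comp (ch s) = AlgHom.id K _ := by
    apply MvPolynomial.algHom_ext
    intro i
    simp only [AlgHom.comp_apply, AlgHom.id_apply]
    rw [← lf_single (K := K), ch_lf, ch_lf, h]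
  exact AlgHom.congr_fun this f

/-- the graded pieces of the ideal of the linear forms -/
def J {n r : ℕ} (l : Fin r → MvPolynomial (Fin n) K) (d : ℕ) :
    Submodule K (MvPolynomial (Fin n) K) :=
  Submodule.span K {p | ∃ i, ∃ e, ∃ f ∈ homogeneousSubmodule (Fin n) K e, e + 1 = d ∧ p = l i * f}

lemma J_mul_X {n r : ℕ} (l : Fin r → MvPolynomial (Fin n) K) (d : ℕ) (i : Fin n)
    {f : MvPolynomial (Fin n) K} (hf : f ∈ J l d) : X i * f ∈ J l (d + 1) := by
  unfold J at hf
  induction hf using Submodule.span_induction with
  | mem x hx =>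
    obtain ⟨j, e, g, hg, he, rfl⟩ := hx
    apply Submodule.subset_span
    refine ⟨j, e + 1, X i * g, ?_, by omega, by ring⟩
    have := (isHomogeneous_X K i).mul hg
    rw [add_comm] at this
    exact this
  | zero => rw [mul_zero]; exact Submodule.zero_mem _
  | add x y _ _ hx hy => rw [mul_add]; exact Submodule.add_mem _ hx hy
  | smul a x _ hx =>
    rw [mul_smul_comm]
    exact Submodule.smul_mem _ _ hx

lemma diff_mem {n p r : ℕ} (T : (Fin n → K) →ₗ[K] (Fin p → K))
    (s : (Fin p → K) →ₗ[K] (Fin n → K)) (v : Fin r → Fin n → K)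
    (hs : ∀ x, x - s (T x) ∈ Submodule.span K (Set.range v)) (d : ℕ) :
    ∀ f ∈ homogeneousSubmodule (Fin n) K d,
      f - ch s (ch T f) ∈ J (fun i => lf n (v i)) d := by
  have main : ∀ d : ℕ, ∀ (m : Fin n →₀ ℕ) (c : K), m.degree = d →
      monomial m c - ch s (ch T (monomial m c)) ∈ J (fun i => lf n (v i)) d := by
    intro d
    induction d with
    | zero =>
      intro m c hm
      have hm0 : m = 0 := by
        ext i
        have := Finsupp.le_degree i m
        simp only [Finsupp.coe_zero, Pi.zero_apply]
        omega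
      rw [hm0]
      have : (monomial (0 : Fin n →₀ ℕ) c) = algebraMap K (MvPolynomial (Fin n) K) c := rfl
      rw [this, AlgHom.commutes, AlgHom.commutes, sub_self]
      exact Submodule.zero_mem _
    | succ d ih =>
      intro m c hm
      obtain ⟨i, hi⟩ : ∃ i, m i ≠ 0 := by
        by_contra hcon
        push Not at hcon
        have : m = 0 := by ext i; exact hcon i
        rw [this] at hm
        simp at hm
      obtain ⟨m', hm'⟩ : ∃ m', m = m' + Finsupp.single i 1 := by
        refine ⟨m - Finsupp.single i 1, ?_⟩
        ext j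
        by_cases hj : i = j
        · subst hj; simp; omega
        · simp [Finsupp.single_apply, hj]
      have hdeg : m'.degree = d := by
        rw [hm', map_add, Finsupp.degree_single] at hm
        omega
      have e1 : monomial m c = X i * monomial m' c := by
        rw [hm', mul_comm, X, monomial_mul, mul_one]
      have hX : X i - ch s (ch T (X i)) = lf n (Pi.single i 1 - s (T (Pi.single i 1))) := by
        rw [← lf_single (K := K), ch_lf, ch_lf, map_sub]
      have e2 : monomial m c - ch s (ch T (monomial m c))
          = X i * (monomial m' c - ch s (ch T (monomial m' c)))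
            + (X i - ch s (ch T (X i))) * ch s (ch T (monomial m' c)) := by
        rw [e1, map_mul, map_mul]; ring
      rw [e2]
      apply Submodule.add_mem
      · exact J_mul_X _ d i (ih m' c hdeg)
      · rw [hX]
        have hg : ch s (ch T (monomial m' c)) ∈ homogeneousSubmodule (Fin n) K d :=
          ch_hom s (ch_hom T (isHomogeneous_monomial c hdeg))
        have hw := hs (Pi.single i 1)
        generalize (Pi.single i (1 : K) - s (T (Pi.single i 1))) = w at hw
        induction hw using Submodule.span_induction with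
        | mem x hx =>
          obtain ⟨j, rfl⟩ := hx
          apply Submodule.subset_span
          exact ⟨j, d, _, hg, rfl, rfl⟩
        | zero => rw [map_zero, zero_mul]; exact Submodule.zero_mem _
        | add x y _ _ hx hy => rw [map_add, add_mul]; exact Submodule.add_mem _ hx hy
        | smul a x _ hx =>
          rw [map_smul, smul_mul_assoc]
          exact Submodule.smul_mem _ _ hx
  intro f hf
  have hsum := f.as_sum
  have e : f - ch s (ch T f) = ∑ m ∈ f.support, (monomial m (coeff m f)
      - ch s (ch T (monomial m (coeff m f)))) := by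
    rw [Finset.sum_sub_distrib, ← map_sum, ← map_sum, ← hsum]
  rw [e]
  apply Submodule.sum_mem
  intro m hm
  apply main d
  have := hf (mem_support_iff.1 hm)
  rw [Finsupp.degree_eq_weight_one]
  exact this

/-- the number of monomials -/
lemma finrank_hs (m d : ℕ) :
    finrank K (homogeneousSubmodule (Fin m) K d) = (m + d - 1).choose d := by
  classical
  rw [homogeneousSubmodule_eq_finsupp_supported]
  have e0 := (AddMonoidAlgebra.supportedEquivFinsupp (R := K) (S := K)
    ({f : Fin m →₀ ℕ | f.degree = d})).finrank_eq
  have e1 : {f : Fin m →₀ ℕ | f.degree = d} = ((Finset.univ : Finset (Fin m)).finsuppAntidiag d : Set _) := by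
    ext f
    simp [Finsupp.degree_eq_sum]
  have : finrank K ({f : Fin m →₀ ℕ | f.degree = d} →₀ K)
      = ((Finset.univ : Finset (Fin m)).finsuppAntidiag d).card := by
    rw [e1, finrank_finsupp_self]
    simp
  rw [Finset.card_finsuppAntidiag_nat_eq_choose, Finset.card_univ, Fintype.card_fin] at this
  rw [← this]
  exact e0

end

end Pool.Agent.K4H30.NS

namespace Pool.Agent.K4H40.NS

open MvPolynomial Module Pool.Agent.K4H30.NS

theorem dim : StDIM := by
  intro n r K _ l hl hli hr d
  choose v hv using fun i => exists_lf (hl i)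
  have hvi : LinearIndependent K v := by
    apply LinearIndependent.of_comp (lf n)
    have : (lf n) ∘ v = l := by funext i; exact hv i
    rw [this]; exact hli
  set W := Submodule.span K (Set.range v) with hW
  have hWr : finrank K W = r := by
    rw [hW, finrank_span_eq_card hvi, Fintype.card_fin]
  have hq : finrank K ((Fin n → K) ⧸ W) = finrank K (Fin (n - r) → K) := by
    have := W.finrank_quotient_add_finrank
    rw [hWr, finrank_fin_fun] at this
    rw [finrank_fin_fun]; omega
  let e := LinearEquiv.ofFinrankEq _ _ hq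
  let T : (Fin n → K) →ₗ[K] (Fin (n - r) → K) := e.toLinearMap ∘ₗ W.mkQ
  have hTs : LinearMap.range T = ⊤ := by
    rw [LinearMap.range_eq_top]
    exact e.surjective.comp W.mkQ_surjective
  obtain ⟨s, hsT⟩ := T.exists_rightInverse_of_surjective hTs
  have hs' : ∀ x, T (s x) = x := fun x => LinearMap.congr_fun hsT x
  have hker : ∀ x, T x = 0 → x ∈ W := by
    intro x hx
    have : W.mkQ x = 0 := by
      apply e.injective
      rw [map_zero]; exact hx
    rwa [Submodule.mkQ_apply, Submodule.Quotient.mk_eq_zero] at this
  have hWT : ∀ i, T (v i) = 0 := by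
    intro i
    have : W.mkQ (v i) = 0 := by
      rw [Submodule.mkQ_apply, Submodule.Quotient.mk_eq_zero]
      exact Submodule.subset_span ⟨i, rfl⟩
    show e (W.mkQ (v i)) = 0
    rw [this, map_zero]
  have hd : ∀ x, x - s (T x) ∈ Submodule.span K (Set.range v) := by
    intro x
    apply hker
    rw [map_sub, hs', sub_self]
  have hdm := diff_mem T s v hd (d + 1)
  haveI : Module.Finite K (hs n K (d + 1)) :=
    Module.Finite.iff_fg.2 (homogeneousSubmodule_fg (Fin n) K (d + 1))
  let φ : hs n K (d + 1) →ₗ[K] MvPolynomial (Fin (n - r)) K :=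
    (ch T).toLinearMap.domRestrict (hs n K (d + 1))
  have hrn := LinearMap.finrank_range_add_finrank_ker φ
  have hrange : LinearMap.range φ = homogeneousSubmodule (Fin (n - r)) K (d + 1) := by
    ext g
    constructor
    · rintro ⟨⟨f, hf⟩, rfl⟩
      exact ch_hom T hf
    · intro hg
      exact ⟨⟨ch s g, ch_hom s hg⟩, ch_comp T s hs' g⟩
  have hkerφ : (LinearMap.ker φ).map (hs n K (d + 1)).subtype
      = Submodule.span K {p | ∃ i, ∃ f ∈ hs n K d, p = l i * f} := by
    apply le_antisymm
    · rintro f ⟨⟨f, hf⟩, hf0, rfl⟩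
      have h0 : ch T f = 0 := hf0
      have h1 := hdm f hf
      rw [h0, map_zero, sub_zero] at h1
      have hle : J (fun i => lf n (v i)) (d + 1)
          ≤ Submodule.span K {p | ∃ i, ∃ f ∈ hs n K d, p = l i * f} := by
        unfold J
        apply Submodule.span_mono
        rintro p ⟨i, e, g, hg, he, rfl⟩
        obtain rfl : e = d := by omega
        exact ⟨i, g, hg, by simp only [hv i]⟩
      exact hle h1
    · rw [Submodule.span_le]
      rintro p ⟨i, f, hf, rfl⟩
      have hh : l i * f ∈ hs n K (d + 1) := by
        have h2 : (l i * f).IsHomogeneous (1 + d) := IsHomogeneous.mul (hl i) hf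
        rw [add_comm] at h2
        exact h2
      refine ⟨⟨l i * f, hh⟩, ?_, rfl⟩
      show ch T (l i * f) = 0
      rw [map_mul, ← hv i, ch_lf, hWT, map_zero, zero_mul]
  rw [← hkerφ, Submodule.finrank_map_subtype_eq, ← hrn, hrange, finrank_hs]
  have : n - r + (d + 1) - 1 = n - r + d := by omega
  rw [this, add_comm]

end Pool.Agent.K4H40.NS
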